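import Mathlib
import Pool.Agent.J6H80.Cubic.Generic

/-!
# General cubic Gorenstein algebras are generic and give elementary components

For every `r ≥ 8`, a general enough graded Gorenstein algebra `A_F = R / Ann(F)` with Hilbert
function `(1, r, r, 1)` is generic, and it corresponds to an elementary component of
`Hilb^(2r+2)(𝔸^r)`.

Outline of the proof. Let `F_r = ∑ x_i x_{i+1} x_{i+2}` (indices mod `r`). The tangent space
computation `(Ann(F_r)^2)^⊥ = D_{≤ 3} ⊕ ⟨x_i · F_r⟩` (`Core`, `Tangent`) shows that the
locus of all points isomorphic to some `Spec A_F` is, near the point `[A_{F_r}]`, a smooth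
variety whose tangent space is the tangent space of the Hilbert scheme (`Smooth`, `Local`,
`Local2`). Hence the closure of the locus is an irreducible component (`Component`). The centred
products of four coordinates vanish on the locus, so on its closure, and all points of the
closure are local (`Elementary`). A deformation of a finite algebra which is a point in an open
subset of the Hilbert scheme has nearby fibres in that open subset (`Deform`), which gives
genericity (`Generic`).
-/

namespace Pool.Agent.Results.MP_24f1ef_ag.CubicElementary

open Pool.Agent.J6H80.Cubic

universe u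

/-- For every `r ≥ 8` there is a nonempty Zariski open set `U` of cubic forms in `r` variables such
that for all `F ∈ U` the algebra `A_F` has Hilbert function `(1, r, r, 1)` and is generic, and there
is an elementary component `Z` of `Hilb^(2r+2)(𝔸^r)` in which the points isomorphic to some
`Spec A_F`, `F ∈ U'`, are dense, for each nonempty Zariski open `U' ⊆ U`. -/
theorem result (k : Type u) [Field k] [IsAlgClosed k] [CharZero k] (r : ℕ) (hr : 8 ≤ r) :
    ∃ U : Set (CubicForm k r), IsZariskiOpen U ∧ U.Nonempty ∧
      (∀ F ∈ U, HasHilbertFunction k (AF F) (h1rr1 r) ∧ IsGeneric k (AF F)) ∧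
      ∃ Z : Set (Hilb k r (2 * r + 2)), IsElementaryComponent Z ∧
        ∀ U' ⊆ U, IsZariskiOpen U' → U'.Nonempty → closure (locus U') = Z :=
  main_theorem k r hr

end Pool.Agent.Results.MP_24f1ef_ag.CubicElementary
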